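import Pool.Agent.Lib.MP_a838d0_pr.Own

/-!
# MP_a838d0_pr: a planar graph of minimal degree 8 with a unique infinite cluster below 1 - p_c

A disproof of the conjecture, with numbers: an infinite, connected, locally finite graph of minimal degree at
least 8 with a straight-line plane drawing and with `p_c ≤ 2^(-41)`, such that at every `p ≥ 1 - 2^(-40)`
there is exactly one infinite open cluster with probability at least `1/2`.
-/

set_option autoImplicit false

namespace Pool.Agent.Results.MP_a838d0_pr.StraightGraphUnique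

open Pool.Agent.Lib.MP_a838d0_pr.Own

/-- There is an infinite connected locally finite graph with all degrees at least `8` and with a
straight-line plane drawing, whose critical probability for site percolation is at most `2^(-41)`, such
that for every `p` in `[1 - 2^(-40), 1]` (for `p = 1 - 2^(-40)`, which lies in `(p_c, 1 - p_c)`, and for every
`p` of that interval above it) the number of infinite open clusters differs from one with probability
at most `1/2`. -/
theorem result :
    ∃ (V : Type) (G : SimpleGraph V) (z : V → ℂ),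
      Infinite V ∧ G.Connected ∧ (∀ v, (G.neighborSet v).Finite) ∧
      (∀ v, 8 ≤ (G.neighborSet v).ncard) ∧ IsStraightDrawing G z ∧
      critProb G ≤ 1 / 2 ^ 41 ∧
      critProb G < 1 - 1 / 2 ^ 40 ∧ 1 - 1 / 2 ^ 40 < 1 - critProb G ∧
      ∀ p : ℝ, 1 - 1 / 2 ^ 40 ≤ p → p ≤ 1 →
        siteMeasure V p {ω | ¬ ∃! C, C ∈ infClusters G ω} ≤ 1 / 2 := by
  have hc : critProb Pool.Agent.Lib.MP_a838d0_pr.G ≤ 1 / 2 ^ 41 := by
    have := crit_le
    rwa [one_div_pow] at this
  refine ⟨Pool.Agent.Lib.MP_a838d0_pr.Vtx, Pool.Agent.Lib.MP_a838d0_pr.G,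
    Pool.Agent.Lib.MP_a838d0_pr.pos, ?_, Pool.Agent.Lib.MP_a838d0_pr.connected,
    Pool.Agent.Lib.MP_a838d0_pr.neighborSet_finite, eight_le, straight, hc, ?_, ?_, ?_⟩
  · refine Infinite.of_injective (fun n : ℕ => Pool.Agent.Lib.MP_a838d0_pr.Vtx.F n 0 (by positivity)) ?_
    intro a b hab
    simp only [Pool.Agent.Lib.MP_a838d0_pr.Vtx.F.injEq] at hab
    exact hab.1
  · exact lt_of_le_of_lt hc (by norm_num)
  · have : (1:ℝ) / 2 ^ 41 < 1 / 2 ^ 40 := by norm_num
    linarith
  · intro p h1 h2
    exact unique_prob (by rw [one_div_pow]; exact h1) h2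

end Pool.Agent.Results.MP_a838d0_pr.StraightGraphUnique
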